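import Pool.Agent.N822.TZ.Stm

/-!
Project TZ (helper822), leaf PR (helper186): partial rigidity along the powers of two.
-/

set_option autoImplicit false

open Set Topology MeasureTheory Filter

open scoped ENNReal

namespace Pool.Agent.N186.TZ.PR

open Pool.Agent.N822.TZ

/-- the integers are a null set -/
theorem la_range : la (range (fun m : ℤ => (m : ℤ_[2]))) = 0 := by
  have : (𝓝[≠] (0 : ℤ_[2])).NeBot := by
    rw [← mem_closure_iff_nhdsWithin_neBot]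
    have h2 : ‖((2 : ℕ) : ℤ_[2])‖ < 1 := by
      rw [PadicInt.norm_p]
      norm_num
    have h1 : Tendsto (fun n : ℕ => ((2 : ℕ) : ℤ_[2]) ^ n) atTop (𝓝 0) :=
      tendsto_pow_atTop_nhds_zero_of_norm_lt_one h2
    refine mem_closure_of_tendsto h1 (Filter.Eventually.of_forall (fun n => ?_))
    exact pow_ne_zero n (by norm_num)
  exact (countable_range _).measure_zero la

/-- the positions where the next two digits are `01` -/
def D (k : ℕ) : Set ℤ_[2] := {z | ∃ (r : ℕ) (w : ℤ_[2]), r < 2 ^ k ∧ z = 2 ^ k * (1 + 4 * w) + r}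

theorem phi_one (w : ℤ_[2]) : phi (1 + 4 * w) = false := by
  have h2 : ‖(2 : ℤ_[2])‖ = (2 : ℝ)⁻¹ := by
    have := PadicInt.norm_p (p := 2)
    exact_mod_cast this
  have hw : ‖2 * w‖ < 1 := by
    rw [norm_mul, h2]
    have := PadicInt.norm_le_one w
    linarith
  have h1 : ‖1 + 2 * w‖ = 1 := by
    rw [PadicInt.norm_add_eq_max_of_ne (by rw [norm_one]; exact hw.ne')]
    rw [norm_one]
    exact max_eq_left hw.le
  have hne : (1 + 2 * w : ℤ_[2]) ≠ 0 := by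
    intro h
    rw [h, norm_zero] at h1
    exact zero_ne_one h1
  have h3 : (1 + 4 * w + 1 : ℤ_[2]) = ((2 : ℕ) : ℤ_[2]) * (1 + 2 * w) := by
    push_cast; ring
  have hv0 : (1 + 2 * w : ℤ_[2]).valuation = 0 := by
    have h5 := PadicInt.norm_eq_zpow_neg_valuation hne
    rw [h1] at h5
    by_contra hcon
    have h6 : ((2 : ℕ) : ℝ) ^ (-((1 + 2 * w : ℤ_[2]).valuation : ℤ)) < 1 := by
      apply zpow_lt_one_of_neg₀ (by norm_num)
      omega
    rw [← h5] at h6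
    exact lt_irrefl _ h6
  unfold phi
  rw [h3, PadicInt.valuation_mul (by norm_num) hne, PadicInt.valuation_p, hv0]
  decide

theorem T_D (h : S_PHI) {k : ℕ} {z : ℤ_[2]} (hz : z ∈ D k)
    (hn : z ∉ range (fun m : ℤ => (m : ℤ_[2]))) (b : Bool) :
    (T ^ (2 ^ k)) (z, b) = (z + 2 ^ k, b) := by
  obtain ⟨r, w, hr, hzw⟩ := hz
  rw [h k z (1 + 4 * w) r (fun m hm => hn ⟨m, hm.symm⟩) hr hzw b, phi_one]
  simp

theorem cover (k : ℕ) (z : ℤ_[2]) : ∃ j ∈ Finset.range 4, z - 2 ^ k * (j : ℤ_[2]) ∈ D k := by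
  have hap : ∀ (x : ℤ_[2]) (n : ℕ), ∃ (u : ℤ_[2]) (r : ℕ), r < 2 ^ n ∧ x = 2 ^ n * u + r := by
    intro x n
    have h1 := PadicInt.appr_spec n x
    rw [Ideal.mem_span_singleton] at h1
    obtain ⟨u, hu⟩ := h1
    refine ⟨u, x.appr n, PadicInt.appr_lt x n, ?_⟩
    have h2 : x = ((2 : ℕ) : ℤ_[2]) ^ n * u + x.appr n := by
      rw [← hu]; ring
    exact_mod_cast h2
  obtain ⟨u, r, hr, hz⟩ := hap z k
  obtain ⟨w, r', hr', hu⟩ := hap u 2
  have hr4 : r' < 4 := by simpa using hr'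
  rcases Nat.eq_zero_or_pos r' with h0 | h0
  · refine ⟨3, by simp, r, w - 1, hr, ?_⟩
    rw [hz, hu, h0]
    push_cast
    ring
  · obtain ⟨j, rfl⟩ : ∃ j, r' = j + 1 := ⟨r' - 1, by omega⟩
    refine ⟨j, by rw [Finset.mem_range]; omega, r, w, hr, ?_⟩
    rw [hz, hu]
    push_cast
    ring

/-- iterated translations -/
theorem iter (s : ℤ_[2]) (F : Set ℤ_[2]) (j : ℕ) :
    la {y | y ∉ F ∧ y + s * (j : ℤ_[2]) ∈ F} ≤ j * la {y | y ∉ F ∧ y + s ∈ F} := by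
  induction j with
  | zero =>
    have : {y | y ∉ F ∧ y + s * ((0 : ℕ) : ℤ_[2]) ∈ F} = ∅ := by
      ext y
      simp
    rw [this]
    simp
  | succ j ih =>
    have hsub : {y | y ∉ F ∧ y + s * ((j + 1 : ℕ) : ℤ_[2]) ∈ F} ⊆
        {y | y ∉ F ∧ y + s * (j : ℤ_[2]) ∈ F} ∪
          (fun y => y + s * (j : ℤ_[2])) ⁻¹' {y | y ∉ F ∧ y + s ∈ F} := by
      rintro y ⟨h1, h2⟩
      by_cases h : y + s * (j : ℤ_[2]) ∈ F
      · left; exact ⟨h1, h⟩
      · right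
        refine ⟨h, ?_⟩
        have : y + s * (j : ℤ_[2]) + s = y + s * ((j + 1 : ℕ) : ℤ_[2]) := by push_cast; ring
        rw [this]
        exact h2
    calc la {y | y ∉ F ∧ y + s * ((j + 1 : ℕ) : ℤ_[2]) ∈ F} ≤ _ := measure_mono hsub
      _ ≤ la {y | y ∉ F ∧ y + s * (j : ℤ_[2]) ∈ F} +
          la ((fun y => y + s * (j : ℤ_[2])) ⁻¹' {y | y ∉ F ∧ y + s ∈ F}) := measure_union_le _ _
      _ = la {y | y ∉ F ∧ y + s * (j : ℤ_[2]) ∈ F} + la {y | y ∉ F ∧ y + s ∈ F} := by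
          rw [measure_preimage_add_right]
      _ ≤ j * la {y | y ∉ F ∧ y + s ∈ F} + la {y | y ∉ F ∧ y + s ∈ F} := by gcongr
      _ = _ := by push_cast; ring

/-- a quarter of `F` is in `D k` -/
theorem quarter (k : ℕ) (F : Set ℤ_[2]) :
    la F ≤ 4 * la (F ∩ D k) + 6 * la {y | y ∉ F ∧ y + 2 ^ k ∈ F} := by
  have hsub : F ⊆ ⋃ j ∈ Finset.range 4,
      ({z | z ∈ F ∧ z - 2 ^ k * (j : ℤ_[2]) ∈ D k} : Set ℤ_[2]) := by
    intro z hz
    obtain ⟨j, hj, hD⟩ := cover k z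
    exact mem_biUnion (Finset.mem_coe.2 hj) ⟨hz, hD⟩
  have h1 : ∀ j ∈ Finset.range 4, la {z | z ∈ F ∧ z - 2 ^ k * (j : ℤ_[2]) ∈ D k} ≤
      la (F ∩ D k) + j * la {y | y ∉ F ∧ y + 2 ^ k ∈ F} := by
    intro j _
    rw [← measure_preimage_add_right la (2 ^ k * (j : ℤ_[2]))]
    refine le_trans (measure_mono (t := (F ∩ D k) ∪
      {y | y ∉ F ∧ y + 2 ^ k * (j : ℤ_[2]) ∈ F}) ?_) ?_
    · rintro y ⟨hy1, hy2⟩
      rw [add_sub_cancel_right] at hy2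
      by_cases h : y ∈ F
      · left; exact ⟨h, hy2⟩
      · right; exact ⟨h, hy1⟩
    · refine (measure_union_le _ _).trans ?_
      gcongr
      exact iter (2 ^ k) F j
  calc la F ≤ la (⋃ j ∈ Finset.range 4,
      ({z | z ∈ F ∧ z - 2 ^ k * (j : ℤ_[2]) ∈ D k} : Set ℤ_[2])) := measure_mono hsub
    _ ≤ ∑ j ∈ Finset.range 4, la {z | z ∈ F ∧ z - 2 ^ k * (j : ℤ_[2]) ∈ D k} :=
        measure_biUnion_finset_le _ _
    _ ≤ ∑ j ∈ Finset.range 4, (la (F ∩ D k) + j * la {y | y ∉ F ∧ y + 2 ^ k ∈ F}) :=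
        Finset.sum_le_sum h1
    _ = _ := by
        simp only [Finset.sum_range_succ, Finset.sum_range_zero]
        push_cast
        ring

theorem hm (b : Bool) : Measurable (fun z : ℤ_[2] => ((z, b) : Om)) :=
  measurable_id.prodMk measurable_const

/-- the two slices -/
theorem rho_ge (S : Set Om) : (2 : ℝ≥0∞)⁻¹ * (la ((fun z => (z, false)) ⁻¹' S) +
    la ((fun z => (z, true)) ⁻¹' S)) ≤ rho S := by
  unfold rho
  rw [Measure.smul_apply, Measure.add_apply, smul_eq_mul]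
  gcongr
  · exact Measure.le_map_apply (hm false).aemeasurable _
  · exact Measure.le_map_apply (hm true).aemeasurable _

theorem rho_eq {S : Set Om} (hS : MeasurableSet S) :
    rho S = (2 : ℝ≥0∞)⁻¹ * (la ((fun z => (z, false)) ⁻¹' S) +
      la ((fun z => (z, true)) ⁻¹' S)) := by
  unfold rho
  rw [Measure.smul_apply, Measure.add_apply, smul_eq_mul,
    Measure.map_apply (hm false) hS, Measure.map_apply (hm true) hS]

/-- one slice -/
theorem slice (h1 : S_PHI) (k : ℕ) (E : Set Om) (b : Bool) :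
    la ((fun z => (z, b)) ⁻¹' E) ≤
      4 * la ((fun z => (z, b)) ⁻¹' (((T ^ (2 ^ k) : Equiv.Perm Om) : Om → Om) ⁻¹' E ∩ E)) +
      (4 * la ((fun z => (z, b)) ⁻¹' E \ ((fun z => z + 2 ^ k) ⁻¹' ((fun z => (z, b)) ⁻¹' E))) +
      6 * la ((((fun z => (z, b)) ⁻¹' E)ᶜ : Set ℤ_[2]) \
        ((fun z => z + 2 ^ k) ⁻¹' ((((fun z => (z, b)) ⁻¹' E)ᶜ : Set ℤ_[2]))))) := by
  set F : Set ℤ_[2] := (fun z => (z, b)) ⁻¹' E with hF
  have hq := quarter k F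
  have hc : {y | y ∉ F ∧ y + 2 ^ k ∈ F} = Fᶜ \ ((fun z => z + 2 ^ k) ⁻¹' Fᶜ) := by
    ext y
    simp
  rw [hc] at hq
  have hsub : F ∩ D k ⊆
      ((fun z => (z, b)) ⁻¹' (((T ^ (2 ^ k) : Equiv.Perm Om) : Om → Om) ⁻¹' E ∩ E)) ∪
      (range (fun m : ℤ => (m : ℤ_[2])) ∪ (F \ ((fun z => z + 2 ^ k) ⁻¹' F))) := by
    rintro z ⟨hz1, hz2⟩
    by_cases hn : z ∈ range (fun m : ℤ => (m : ℤ_[2]))
    · right; left; exact hn
    · by_cases hz3 : z + 2 ^ k ∈ F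
      · left
        refine ⟨?_, hz1⟩
        show (T ^ (2 ^ k)) (z, b) ∈ E
        rw [T_D h1 hz2 hn b]
        exact hz3
      · right; right; exact ⟨hz1, hz3⟩
  have h2 : la (F ∩ D k) ≤
      la ((fun z => (z, b)) ⁻¹' (((T ^ (2 ^ k) : Equiv.Perm Om) : Om → Om) ⁻¹' E ∩ E)) +
      la (F \ ((fun z => z + 2 ^ k) ⁻¹' F)) := by
    refine (measure_mono hsub).trans ((measure_union_le _ _).trans ?_)
    have h5 : la (range (fun m : ℤ => (m : ℤ_[2])) ∪ (F \ ((fun z => z + 2 ^ k) ⁻¹' F))) ≤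
        la (F \ ((fun z => z + 2 ^ k) ⁻¹' F)) := by
      refine (measure_union_le _ _).trans ?_
      rw [la_range, zero_add]
    gcongr
  refine hq.trans ?_
  calc 4 * la (F ∩ D k) + 6 * la (Fᶜ \ ((fun z => z + 2 ^ k) ⁻¹' Fᶜ))
      ≤ 4 * (la ((fun z => (z, b)) ⁻¹' (((T ^ (2 ^ k) : Equiv.Perm Om) : Om → Om) ⁻¹' E ∩ E)) +
      la (F \ ((fun z => z + 2 ^ k) ⁻¹' F))) + 6 * la (Fᶜ \ ((fun z => z + 2 ^ k) ⁻¹' Fᶜ)) := by
        gcongr
    _ = _ := by ring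

theorem t_PR (h1 : S_PHI) (h3 : S_TR) : S_PR := by
  intro E hE
  set F : Bool → Set ℤ_[2] := fun b => (fun z => (z, b)) ⁻¹' E with hF
  have hFm : ∀ b, MeasurableSet (F b) := fun b => hm b hE
  set er : Bool → ℕ → ℝ≥0∞ := fun b k =>
    4 * la (F b \ ((fun z => z + 2 ^ k) ⁻¹' (F b))) +
      6 * la ((F b)ᶜ \ ((fun z => z + 2 ^ k) ⁻¹' (F b)ᶜ)) with her
  have hert : ∀ b, Tendsto (er b) atTop (𝓝 0) := by
    intro b
    have t1 := h3 (F b) (hFm b)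
    have t2 := h3 (F b)ᶜ (hFm b).compl
    have t3 := (ENNReal.Tendsto.const_mul t1 (a := 4) (Or.inr (by norm_num))).add
      (ENNReal.Tendsto.const_mul t2 (a := 6) (Or.inr (by norm_num)))
    simpa only [mul_zero, add_zero] using t3
  set e : ℕ → ℝ≥0∞ := fun k => (4 : ℝ≥0∞)⁻¹ * ((2 : ℝ≥0∞)⁻¹ * (er false k + er true k)) with he
  have het : Tendsto e atTop (𝓝 0) := by
    have t4 := ENNReal.Tendsto.const_mul (ENNReal.Tendsto.const_mul
      ((hert false).add (hert true)) (a := (2 : ℝ≥0∞)⁻¹) (Or.inr (by simp)))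
      (a := (4 : ℝ≥0∞)⁻¹) (Or.inr (by simp))
    simpa using t4
  have hle : ∀ k : ℕ, (4 : ℝ≥0∞)⁻¹ * rho E - e k ≤
      rho (((T ^ (2 ^ k) : Equiv.Perm Om) : Om → Om) ⁻¹' E ∩ E) := by
    intro k
    rw [tsub_le_iff_right]
    set S := ((T ^ (2 ^ k) : Equiv.Perm Om) : Om → Om) ⁻¹' E ∩ E with hS
    have hf := slice h1 k E false
    have ht := slice h1 k E true
    rw [rho_eq hE]
    have h4 : (4 : ℝ≥0∞)⁻¹ * 4 = 1 := ENNReal.inv_mul_cancel (by norm_num) (by norm_num)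
    calc (4 : ℝ≥0∞)⁻¹ * ((2 : ℝ≥0∞)⁻¹ * (la (F false) + la (F true)))
        ≤ (4 : ℝ≥0∞)⁻¹ * ((2 : ℝ≥0∞)⁻¹ *
          ((4 * la ((fun z => (z, false)) ⁻¹' S) + er false k) +
            (4 * la ((fun z => (z, true)) ⁻¹' S) + er true k))) := by
          gcongr
      _ = ((4 : ℝ≥0∞)⁻¹ * 4) * ((2 : ℝ≥0∞)⁻¹ * (la ((fun z => (z, false)) ⁻¹' S) +
            la ((fun z => (z, true)) ⁻¹' S))) + e k := by
          rw [he]
          ring
      _ = (2 : ℝ≥0∞)⁻¹ * (la ((fun z => (z, false)) ⁻¹' S) +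
            la ((fun z => (z, true)) ⁻¹' S)) + e k := by
          rw [h4, one_mul]
      _ ≤ rho S + e k := by
          gcongr
          exact rho_ge S
  have hlim : Tendsto (fun k => (4 : ℝ≥0∞)⁻¹ * rho E - e k) atTop
      (𝓝 ((4 : ℝ≥0∞)⁻¹ * rho E)) := by
    have t5 := ENNReal.Tendsto.sub (tendsto_const_nhds (x := (4 : ℝ≥0∞)⁻¹ * rho E)) het
      (Or.inr (by norm_num))
    simpa using t5
  rw [← hlim.liminf_eq]
  exact liminf_le_liminf (Filter.Eventually.of_forall hle)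

end Pool.Agent.N186.TZ.PR
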